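import Pool.Agent.FTC.Words
import Pool.Agent.FTA.Frame

/-!
# The second block graph
-/

namespace Pool.Agent.FTC

open Pool.Agent.Helper68 Pool.Agent.FT6

variable {k t N m : ℕ}

/-- reduced words of length `s + 1` without the letter `a`, with head `b` -/
def rwh (k : ℕ) (a : Fin k) : ℕ → Fin k → Finset (List (Fin k))
  | 0, b => {[b]}
  | s + 1, b => ((Finset.univ.erase a).erase b).biUnion
      (fun c => (rwh k a s c).image (fun l => b :: l))

/-- reduced words of length `j` without the letter `a` -/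
def rw' (k : ℕ) (a : Fin k) : ℕ → Finset (List (Fin k))
  | 0 => {[]}
  | s + 1 => (Finset.univ.erase a).biUnion (rwh k a s)

/-- the vertices of the block as a finite set -/
def blk (k t : ℕ) : Finset (TV k) :=
  (Finset.univ : Finset (Fin k)).biUnion (fun a => (Finset.univ : Finset Bool).biUnion (fun ε =>
    (Finset.range (if ε then t - 1 else t)).biUnion (fun j =>
      (rw' k a j).image (fun l => (a, ε, l)))))

theorem mem_rwh {a : Fin k} {s : ℕ} : ∀ {b : Fin k} {l : List (Fin k)}, l ∈ rwh k a s b ↔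
    l.length = s + 1 ∧ l.head? = some b ∧ (∀ x ∈ l.tail, x ≠ a) ∧ red l := by
  induction s with
  | zero =>
    intro b l
    simp only [rwh, Finset.mem_singleton]
    constructor
    · rintro rfl
      simp [red]
    · rintro ⟨h, h2, -, -⟩
      cases l with
      | nil => simp at h
      | cons c l =>
        simp only [List.length_cons, Nat.add_eq_right] at h
        rw [List.length_eq_zero_iff] at h
        subst h
        simp only [List.head?_cons, Option.some.injEq] at h2
        rw [h2]
  | succ s ih =>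
    intro b l
    simp only [rwh, Finset.mem_biUnion, Finset.mem_erase, Finset.mem_univ, and_true,
      Finset.mem_image]
    constructor
    · rintro ⟨c, ⟨hcb, hca⟩, l', hl', rfl⟩
      rw [ih] at hl'
      obtain ⟨h1, h2, h3, h4⟩ := hl'
      refine ⟨by simp [h1], rfl, ?_, ?_, h4⟩
      · intro x hx
        rw [List.tail_cons] at hx
        cases l' with
        | nil => simp at hx
        | cons d l' =>
          simp only [List.head?_cons, Option.some.injEq] at h2
          subst h2
          rw [List.mem_cons] at hx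
          rcases hx with rfl | hx
          · exact hca
          · exact h3 x hx
      · intro y hy
        rw [h2, Option.some.injEq] at hy
        rw [← hy]
        exact fun h => hcb h.symm
    · rintro ⟨h1, h2, h3, h4⟩
      cases l with
      | nil => simp at h1
      | cons d l' =>
        simp only [List.head?_cons, Option.some.injEq] at h2
        subst h2
        cases l' with
        | nil => simp at h1
        | cons c l' =>
          have hcd : d ≠ c := h4.1 c rfl
          refine ⟨c, ⟨fun h => hcd h.symm, h3 c (by simp)⟩, c :: l', ?_, rfl⟩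
          rw [ih]
          refine ⟨by simpa using h1, rfl, ?_, h4.2⟩
          intro x hx
          exact h3 x (by rw [List.tail_cons] at hx ⊢; exact List.mem_cons_of_mem _ hx)

theorem mem_rw {a : Fin k} {j : ℕ} {l : List (Fin k)} : l ∈ rw' k a j ↔
    l.length = j ∧ (∀ x ∈ l, x ≠ a) ∧ red l := by
  cases j with
  | zero =>
    simp only [rw', Finset.mem_singleton]
    constructor
    · rintro rfl
      simp [red]
    · rintro ⟨h, -, -⟩
      exact List.eq_nil_of_length_eq_zero h
  | succ s =>
    simp only [rw', Finset.mem_biUnion, Finset.mem_erase, Finset.mem_univ, and_true, mem_rwh]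
    constructor
    · rintro ⟨b, hb, h1, h2, h3, h4⟩
      refine ⟨h1, ?_, h4⟩
      intro x hx
      cases l with
      | nil => simp at hx
      | cons d l =>
        simp only [List.head?_cons, Option.some.injEq] at h2
        subst h2
        rw [List.mem_cons] at hx
        rcases hx with rfl | hx
        · exact hb
        · exact h3 x hx
    · rintro ⟨h1, h2, h3⟩
      cases l with
      | nil => simp at h1
      | cons d l =>
        exact ⟨d, h2 d (by simp), h1, rfl, fun x hx => h2 x (List.mem_cons_of_mem _ hx), h3⟩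

theorem mem_blk {x : TV k} : x ∈ blk k t ↔ Blk t x := by
  obtain ⟨a, ε, l⟩ := x
  unfold blk Blk
  simp only [Finset.mem_biUnion, Finset.mem_univ, true_and, Finset.mem_range, Finset.mem_image,
    Prod.mk.injEq, mem_rw]
  constructor
  · rintro ⟨a', ε', j, hj, l', ⟨h1, h2, h3⟩, rfl, rfl, rfl⟩
    refine ⟨h2, h3, ?_⟩
    split_ifs at hj ⊢ <;> omega
  · rintro ⟨h1, h2, h3⟩
    refine ⟨a, ε, l.length, ?_, l, ⟨rfl, h1, h2⟩, rfl, rfl, rfl⟩
    split_ifs at h3 ⊢ <;> omega

/-- `y` is the parent of `x` -/
def par (x y : TV k) : Prop := x.1 = y.1 ∧ x.2.1 = y.2.1 ∧ ∃ b, x.2.2 = b :: y.2.2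

/-- cross edges, first kind: partners -/
def R1 (t : ℕ) (x y : TV k) : Prop :=
  x.2.1 = y.2.1 ∧ x.2.2.length + 2 ≤ t ∧ x.2.2.head? = some y.1 ∧ y.2.2 = sw x.1 y.1 x.2.2

/-- cross edges, second kind -/
def R2 (t : ℕ) (x y : TV k) : Prop :=
  x.2.1 = true ∧ y.2.1 = false ∧ x.2.2.length + 2 = t ∧ x.2.2.head? ≠ some y.1 ∧
    y.2.2 = x.1 :: sw x.1 y.1 x.2.2

/-- cross edges, third kind -/
def R3 (t : ℕ) (x y : TV k) : Prop :=
  x.2.1 = false ∧ y.2.1 = false ∧ x.2.2.length + 1 = t ∧ x.2.2.head? ≠ some y.1 ∧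
    y.2.2 = sw x.1 y.1 x.2.2

/-- cross edges -/
def cross (t : ℕ) (x y : TV k) : Prop :=
  x.1 ≠ y.1 ∧ (R1 t x y ∨ R2 t x y ∨ R2 t y x ∨ R3 t x y)

/-- low edges -/
def low (t : ℕ) (x y : TV k) : Prop := par x y ∨ par y x ∨ cross t x y

theorem par_irrefl (x : TV k) : ¬ par x x := by
  rintro ⟨-, -, b, h⟩
  have := congrArg List.length h
  simp at this

theorem R1_symm {x y : TV k} (h : R1 t x y) : R1 t y x := by
  obtain ⟨h1, h2, h3, h4⟩ := h
  refine ⟨h1.symm, by rw [h4, sw_length]; exact h2, ?_, ?_⟩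
  · rw [h4, sw_head]
    exact h3
  · rw [h4, sw_sw]

theorem R3_symm {x y : TV k} (h : R3 t x y) : R3 t y x := by
  obtain ⟨h1, h2, h3, h4, h5⟩ := h
  refine ⟨h2, h1, by rw [h5, sw_length]; exact h3, ?_, ?_⟩
  · rw [h5, Ne, sw_head]
    exact h4
  · rw [h5, sw_sw]

theorem cross_symm {x y : TV k} (h : cross t x y) : cross t y x := by
  refine ⟨h.1.symm, ?_⟩
  rcases h.2 with h | h | h | h
  · exact Or.inl (R1_symm h)
  · exact Or.inr (Or.inr (Or.inl h))
  · exact Or.inr (Or.inl h)
  · exact Or.inr (Or.inr (Or.inr (R3_symm h)))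

theorem low_symm {x y : TV k} (h : low t x y) : low t y x := by
  rcases h with h | h | h
  · exact Or.inr (Or.inl h)
  · exact Or.inl h
  · exact Or.inr (Or.inr (cross_symm h))

theorem low_irrefl (x : TV k) : ¬ low t x x := by
  rintro (h | h | h)
  · exact par_irrefl x h
  · exact par_irrefl x h
  · exact h.1 rfl

/-- low vertices: `N` blocks and `m` leftover vertices -/
abbrev XX (k t N m : ℕ) : Type := (Fin N × {x // x ∈ blk k t}) ⊕ Fin m

/-- adjacency -/
def gAdj (k t N m : ℕ) : (Fin k ⊕ XX k t N m) → (Fin k ⊕ XX k t N m) → Prop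
  | .inl i, .inl j => i ≠ j
  | .inl i, .inr (.inl x) => x.2.1.1 = i ∧ x.2.1.2.2 = []
  | .inr (.inl x), .inl i => x.2.1.1 = i ∧ x.2.1.2.2 = []
  | .inl _, .inr (.inr _) => True
  | .inr (.inr _), .inl _ => True
  | .inr (.inl x), .inr (.inl y) => x.1 = y.1 ∧ low t x.2.1 y.2.1
  | _, _ => False

/-- the graph -/
def gGraph (k t N m : ℕ) : SimpleGraph (Fin k ⊕ XX k t N m) where
  Adj := gAdj k t N m
  symm := ⟨by
    intro u v h
    rcases u with i | x | e <;> rcases v with j | y | f <;> simp only [gAdj] at h ⊢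
    · exact fun h' => h h'.symm
    · exact h
    · exact h
    · exact ⟨h.1.symm, low_symm h.2⟩⟩
  loopless := ⟨by
    intro u h
    rcases u with i | x | e
    · exact h rfl
    · exact low_irrefl _ h.2
    · exact h⟩

theorem blk_suffix {a : Fin k} {ε : Bool} {l l' : List (Fin k)}
    (hx : ((a, ε, l) : TV k) ∈ blk k t) (hs : l' <:+ l) : ((a, ε, l') : TV k) ∈ blk k t := by
  rw [mem_blk] at hx ⊢
  refine ⟨fun x hx' => hx.1 x (hs.subset hx'), red_suffix hx.2.1 hs, ?_⟩
  have h1 := hs.length_le
  have h2 := hx.2.2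
  simp only at h2 ⊢
  omega

end Pool.Agent.FTC
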