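import Pool.Agent.FTA.Words

/-!
# The second block for diameter `2 t + 2`

For every colour `a` there are two trees; the vertices of the tree `(a, false)` are the reduced words
(consecutive letters are different) of length at most `t - 1` without the letter `a`, those of the
tree `(a, true)` the reduced words of length at most `t - 2` (lists, head = last letter, parent =
tail).  Cross edges: see `FTC/Graph`.
-/

namespace Pool.Agent.FTC

variable {k t : ℕ}

/-- a tree vertex: colour, tree, word -/
abbrev TV (k : ℕ) : Type := Fin k × Bool × List (Fin k)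

/-- consecutive letters are different -/
def red : List (Fin k) → Prop
  | [] => True
  | b :: l => (∀ y, l.head? = some y → b ≠ y) ∧ red l

theorem red_cons {b : Fin k} {l : List (Fin k)} : red (b :: l) ↔
    (∀ y, l.head? = some y → b ≠ y) ∧ red l := Iff.rfl

theorem red_suffix : ∀ {l l' : List (Fin k)}, red l → l' <:+ l → red l'
  | [], l', _, h => by
    rw [List.suffix_nil] at h
    rw [h]
    trivial
  | b :: l, l', hr, h => by
    rw [List.suffix_cons_iff] at h
    rcases h with rfl | h
    · exact hr
    · exact red_suffix hr.2 h

theorem red_map {f : Fin k → Fin k} (hf : Function.Injective f) : ∀ {l : List (Fin k)}, red l →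
    red (l.map f)
  | [], _ => trivial
  | b :: l, h => by
    refine ⟨?_, red_map hf h.2⟩
    intro y hy
    rw [List.head?_map, Option.map_eq_some_iff] at hy
    obtain ⟨z, hz, rfl⟩ := hy
    intro h3
    exact h.1 z hz (hf h3)

/-- the vertices of the block -/
def Blk (t : ℕ) (x : TV k) : Prop :=
  (∀ y ∈ x.2.2, y ≠ x.1) ∧ red x.2.2 ∧ x.2.2.length + (if x.2.1 then 2 else 1) ≤ t

/-- the word with `a` and `b` exchanged -/
def sw (a b : Fin k) (l : List (Fin k)) : List (Fin k) := l.map (Equiv.swap a b)

theorem sw_length (a b : Fin k) (l : List (Fin k)) : (sw a b l).length = l.length := by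
  simp [sw]

theorem sw_sw (a b : Fin k) (l : List (Fin k)) : sw b a (sw a b l) = l := by
  unfold sw
  rw [List.map_map]
  have h7 : (⇑(Equiv.swap b a) ∘ ⇑(Equiv.swap a b)) = id := by
    funext z
    rw [Equiv.swap_comm b a]
    simp
  rw [h7, List.map_id]

theorem sw_red {a b : Fin k} {l : List (Fin k)} (h : red l) : red (sw a b l) :=
  red_map (Equiv.injective _) h

theorem sw_ne {a b : Fin k} {l : List (Fin k)} (h : ∀ y ∈ l, y ≠ a) : ∀ y ∈ sw a b l, y ≠ b := by
  intro y hy
  unfold sw at hy
  rw [List.mem_map] at hy
  obtain ⟨z, hz, rfl⟩ := hy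
  intro h3
  apply h z hz
  have h4 := (Equiv.swap_apply_eq_iff (x := a) (y := b) (z := z) (w := b)).mp h3
  rw [h4, Equiv.swap_apply_right]

theorem sw_head {a b : Fin k} {l : List (Fin k)} : (sw a b l).head? = some a ↔
    l.head? = some b := by
  unfold sw
  rw [List.head?_map]
  cases l with
  | nil => simp
  | cons z l =>
    simp only [List.head?_cons, Option.map_some, Option.some.injEq]
    constructor
    · intro h
      have h4 := (Equiv.swap_apply_eq_iff (x := a) (y := b) (z := z) (w := a)).mp h
      rw [h4, Equiv.swap_apply_left]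
    · intro h
      rw [h, Equiv.swap_apply_right]

end Pool.Agent.FTC
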